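import Pool.Agent.R357.MC.Fin
import Pool.Agent.R357.MC.C50

set_option autoImplicit false

open Pool.Agent.R357.MC

namespace Pool.Agent.Results.MP_2ab2dc_nt.NonMCFifty

/-- The circle `S_50` encloses `f(50) = 8000` lattice points, and `8000` is non-MC: there is no largest circle
enclosing exactly `8000` lattice points. -/
theorem result : f 50 = 8000 ∧ ¬ IsMC (f 50) := by
  have h50 : f 50 = 8000 := by rw [f_grid]; decide +kernel
  refine ⟨h50, ?_⟩
  rw [h50]
  exact cert50.not_mc' (by decide) 2 rfl (by decide) (by decide) (0, 1) 86 (by decide) (by decide +kernel)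

end Pool.Agent.Results.MP_2ab2dc_nt.NonMCFifty
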